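import Pool.Agent.Y549.Om.Machine
import Pool.Agent.H561R3.Om.Defs

set_option autoImplicit false

/-!
Halting probabilities restricted to co-c.e. sets of outputs are random.
-/

namespace Pool.Agent.Y549.Om

open Encodable Pool.Agent.Helper227 Pool.Agent.H561R3 Pool.Agent.H561R3.Om Finset Filter Topology

theorem s1_graph {U : Str →. Str} (hU : Partrec U) : S1 fun x : Str × Str => x.2 ∈ U x.1 := by
  have h1 : Partrec fun x : Str × Str => (U x.1).bind fun y =>
      (if y = x.2 then Part.some () else Part.none) := by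
    refine Partrec.bind (hU.comp Computable.fst) ?_
    have h2 : PrimrecPred fun z : (Str × Str) × Str => z.2 = z.1.2 :=
      Primrec.eq.comp Primrec.snd (Primrec.snd.comp Primrec.fst)
    have h3 : Partrec fun z : (Str × Str) × Str =>
        (cond (decide (z.2 = z.1.2)) (Part.some ()) Part.none : Part Unit) :=
      Partrec.cond h2.decide.to_comp (Computable.const ()).partrec Partrec.none
    refine h3.of_eq fun z => ?_
    by_cases h : z.2 = z.1.2 <;> simp [h]
  refine (S1.of_re h1.dom_re).of_eq fun x => ?_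
  simp only [Part.bind_dom]
  constructor
  · rintro ⟨h, h2⟩
    by_cases h3 : (U x.1).get h = x.2
    · rw [← h3]; exact Part.get_mem h
    · rw [if_neg h3] at h2
      exact h2.elim
  · intro h
    refine ⟨Part.dom_iff_mem.2 ⟨_, h⟩, ?_⟩
    have h3 : (U x.1).get (Part.dom_iff_mem.2 ⟨_, h⟩) = x.2 :=
      Part.get_eq_of_mem h _
    rw [h3, if_pos rfl]
    trivial

/-- The theorem for machines with a weak form of universality by adjunction. -/
theorem random_of_adj (U : Str →. Str) (hU : PFMachine U)
    (hadj : ∀ N : Str →. Str, PFMachine N → ∃ σ : Str, ∀ p, U (σ ++ p) = N p)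
    (X : Set Str) (hX : REPred fun x : Str => x ∉ X) (x0 : Str) (hx0 : x0 ∈ X) :
    MLRandomReal (Omega U X) := by
  intro V hV
  by_contra hcon
  push Not at hcon
  obtain ⟨qU, pU, mU, eU⟩ := s1_graph hU.1
  obtain ⟨qW, pW, mW, eW⟩ := S1.of_re hX
  obtain ⟨qV, pV, mV, eV⟩ := S1.of_re hV.1
  obtain ⟨σ, hσ⟩ := hadj _ (pf_MM pU pW pV x0)
  set κ := kap (encode σ) with hκ
  have hkap : ∀ p, κ ++ p = σ ++ (cod (encode σ) ++ p) := by
    intro p
    rw [hκ]
    unfold kap
    rw [encodek]
    simp
  -- what `U` does on the programs of the opponent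
  have hown : ∀ p x, x ∈ U (κ ++ p) ↔ DomK qU qW qV κ p ∧ x = x0 := by
    intro p x
    rw [hkap, hσ, mem_MM, domM_cod]
  have hborn : ∀ s p, p ∈ BB qU κ s → (U p).Dom := by
    intro s p hp
    rw [mem_BB] at hp
    obtain ⟨-, -, x, -, hx⟩ := hp
    exact Part.dom_iff_mem.2 ⟨x, (eU (p, x)).2 ⟨s, hx⟩⟩
  have hlive : ∀ s, XX qU qW qV κ s =
      ∑ p ∈ (BB qU κ s \ DD qU qW κ s) ∪ own qU qW qV κ s, (1 / 2 : ℝ) ^ p.length := by
    intro s
    change XX qU qW qV κ s = wt _
    rw [wt_union, wt_own]
    · rfl
    · rw [Finset.disjoint_left]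
      intro p hp hp'
      rw [Finset.mem_sdiff, mem_BB] at hp
      rw [mem_own] at hp'
      obtain ⟨p', -, -, rfl⟩ := hp'
      exact hp.1.2.1 (List.prefix_append _ _)
  refine no_env (qU := qU) (qW := qW) (qV := qV) (κ := κ) (V := V) (α := Omega U X)
    ⟨mU, mW, mV, hV.2, fun c t s h => (eV (c, t)).2 ⟨s, h⟩, fun c t h => (eV (c, t)).1 h,
      fun s p hp q hq h => hU.2 p q (hborn s p hp) (hborn s q hq) h, ?_, hcon⟩
  have h1 := tendsto_live (D := {p : Str | (U p).Dom}) (fun p hp q hq h => hU.2 p q hp hq h)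
    (fun s => (BB qU κ s \ DD qU qW κ s) ∪ own qU qW qV κ s) {p | ∃ x ∈ X, x ∈ U p} ?_ ?_
  · refine h1.congr fun s => (hlive s).symm
  · intro s p hp
    rcases Finset.mem_union.1 hp with h | h
    · exact hborn s p (Finset.mem_sdiff.1 h).1
    · rw [mem_own] at h
      obtain ⟨p', -, h2, rfl⟩ := h
      exact Part.dom_iff_mem.2 ⟨x0, (hown p' x0).2 ⟨h2, rfl⟩⟩
  · intro p
    by_cases hp : κ <+: p
    · obtain ⟨p', rfl⟩ := hp
      filter_upwards [eventually_ge_atTop p'.length] with s hs
      rw [Finset.mem_union, Finset.mem_sdiff, mem_BB, mem_own]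
      constructor
      · rintro (h | ⟨p'', h2, h3, h4⟩)
        · exact absurd (List.prefix_append _ _) h.1.2.1
        · have : p' = p'' := List.append_cancel_left h4
          subst this
          exact ⟨x0, hx0, (hown _ _).2 ⟨h3, rfl⟩⟩
      · rintro ⟨x, hx, hx2⟩
        exact Or.inr ⟨p', hs, ((hown _ _).1 hx2).1, rfl⟩
    · have hno : ∀ s, p ∉ own qU qW qV κ s := by
        intro s h
        rw [mem_own] at h
        obtain ⟨p', -, -, rfl⟩ := h
        exact hp (List.prefix_append _ _)
      by_cases hd : (U p).Dom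
      · obtain ⟨x, hx⟩ := Part.dom_iff_mem.1 hd
        obtain ⟨s0, hs0⟩ := (eU (p, x)).1 hx
        have hbb : ∀ s, max (max p.length s0) (encode x + 1) ≤ s → p ∈ BB qU κ s := by
          intro s hs
          rw [mem_BB]
          exact ⟨by omega, hp, x, mem_cand_of_encode (by omega), mU _ _ _ (by omega) hs0⟩
        by_cases hxX : x ∈ X
        · filter_upwards [eventually_ge_atTop (max (max p.length s0) (encode x + 1))] with s hs
          rw [Finset.mem_union, Finset.mem_sdiff]
          constructor
          · intro _; exact ⟨x, hxX, hx⟩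
          · intro _
            refine Or.inl ⟨hbb s hs, fun hD => ?_⟩
            rw [mem_DD] at hD
            obtain ⟨-, y, -, hy1, hy2⟩ := hD
            have h3 : y ∈ U p := (eU (p, y)).2 ⟨s, hy1⟩
            have h4 : y ∉ X := (eW y).2 ⟨s, hy2⟩
            exact h4 (Part.mem_unique hx h3 ▸ hxX)
        · obtain ⟨s1, hs1⟩ := (eW x).1 hxX
          filter_upwards [eventually_ge_atTop (max (max p.length s0) (encode x + 1)),
            eventually_ge_atTop s1] with s hs hs'
          rw [Finset.mem_union, Finset.mem_sdiff]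
          constructor
          · rintro (h | h)
            · exfalso
              apply h.2
              rw [mem_DD]
              exact ⟨(mem_BB qU κ).1 (hbb s hs), x, mem_cand_of_encode (by omega),
                mU _ _ _ (by omega) hs0, mW _ _ _ hs' hs1⟩
            · exact absurd h (hno s)
          · rintro ⟨y, hy, hy2⟩
            exact absurd (Part.mem_unique hx hy2 ▸ hy) hxX
      · refine Eventually.of_forall fun s => ?_
        rw [Finset.mem_union, Finset.mem_sdiff]
        constructor
        · rintro (h | h)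
          · exact absurd (hborn s p h.1) hd
          · exact absurd h (hno s)
        · rintro ⟨x, _, hx⟩
          exact absurd (Part.dom_iff_mem.2 ⟨x, hx⟩) hd

/-- The main theorem. -/
theorem main (U : Str →. Str) (hU : UniversalByAdjunction U)
    (X : Set Str) (hX : REPred fun x : Str => x ∉ X) (hpos : 0 < Omega U X) :
    MLRandomReal (Omega U X) := by
  obtain ⟨hpf, M, σ, -, -, hall, -, -, hadj⟩ := hU
  have hne : ∃ x0, x0 ∈ X := by
    by_contra hc
    push Not at hc
    have h1 : {p | ∃ x ∈ X, x ∈ U p} = (∅ : Set Str) := by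
      ext p
      simp only [Set.mem_empty_iff_false, iff_false]
      rintro ⟨x, hx, _⟩
      exact hc x hx
    unfold Omega at hpos
    rw [h1] at hpos
    simp at hpos
  obtain ⟨x0, hx0⟩ := hne
  refine random_of_adj U hpf (fun N hN => ?_) X hX x0 hx0
  obtain ⟨e, he⟩ := hall N hN
  exact ⟨σ e, fun p => by rw [hadj, he]⟩

end Pool.Agent.Y549.Om
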