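import Pool.Agent.Y549.Om.Phase

set_option autoImplicit false

/-!
The machine that plays the strategies.
-/

namespace Pool.Agent.Y549.Om

open Encodable Pool.Agent.Helper227 Pool.Agent.H561R3 Pool.Agent.H561R3.Om Finset

/-- numerical value of a binary string -/
def bval (p : Str) : ℕ := p.foldl (fun a b => 2 * a + (if b = true then 1 else 0)) 0

theorem bval_snoc (p : Str) (b : Bool) :
    bval (p ++ [b]) = 2 * bval p + (if b = true then 1 else 0) := by
  simp [bval, List.foldl_append]

theorem bval_append (p r : Str) : bval (p ++ r) = bval p * 2 ^ r.length + bval r := by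
  induction r using List.reverseRecOn with
  | nil => simp [bval]
  | append_singleton r b ih =>
    rw [← List.append_assoc, bval_snoc, bval_snoc, ih, List.length_append, List.length_singleton,
      pow_succ]
    ring

theorem bval_lt (r : Str) : bval r < 2 ^ r.length := by
  induction r using List.reverseRecOn with
  | nil => simp [bval]
  | append_singleton r b ih =>
    rw [bval_snoc, List.length_append, List.length_singleton, pow_succ]
    split_ifs <;> omega

theorem exists_bval (n : ℕ) : ∀ m < 2 ^ n, ∃ p : Str, p.length = n ∧ bval p = m := by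
  induction n with
  | zero =>
    intro m hm
    exact ⟨[], rfl, by simp [bval] at *; omega⟩
  | succ n ih =>
    intro m hm
    rw [pow_succ] at hm
    obtain ⟨p, hp, hv⟩ := ih (m / 2) (by omega)
    refine ⟨p ++ [decide (m % 2 = 1)], by simp [hp], ?_⟩
    rw [bval_snoc, hv]
    by_cases h : m % 2 = 1
    · simp [h]; omega
    · simp [h]; omega

theorem bval_inj {p q : Str} (hl : p.length = q.length) (h : bval p = bval q) : p = q := by
  induction p using List.reverseRecOn generalizing q with
  | nil =>
    rw [List.length_nil] at hl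
    exact (List.length_eq_zero_iff.1 hl.symm).symm
  | append_singleton p b ih =>
    induction q using List.reverseRecOn with
    | nil => simp at hl
    | append_singleton q c _ =>
      rw [bval_snoc, bval_snoc] at h
      have hl' : p.length = q.length := by simpa using hl
      have h2 : bval p = bval q ∧ b = c := by
        cases b <;> cases c <;> simp at h ⊢ <;> omega
      rw [ih hl' h2.1, h2.2]

theorem primrec_bval : Primrec bval := by
  unfold bval
  refine Primrec.list_foldl (f := fun p : Str => p) (g := fun _ => 0)
    (h := fun _ q => 2 * q.1 + (if q.2 = true then 1 else 0)) Primrec.id (Primrec.const 0) ?_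
  refine Primrec.nat_add.comp (Primrec.nat_mul.comp (Primrec.const 2)
    (Primrec.fst.comp Primrec.snd)) ?_
  exact Primrec.ite (Primrec.eq.comp (Primrec.snd.comp Primrec.snd) (Primrec.const true))
    (Primrec.const 1) (Primrec.const 0)

theorem card_bval {n A B : ℕ} (hB : B ≤ 2 ^ n) :
    ((FS n).filter fun p => A ≤ bval p ∧ bval p < B).card = B - A := by
  rw [← Nat.card_Ico A B]
  refine Finset.card_bij (fun p _ => bval p) ?_ ?_ ?_
  · intro p hp
    rw [mem_filter] at hp
    exact Finset.mem_Ico.2 hp.2
  · intro p hp q hq h
    rw [mem_filter, mem_FS] at hp hq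
    exact bval_inj (hp.1.trans hq.1.symm) h
  · intro m hm
    rw [Finset.mem_Ico] at hm
    obtain ⟨p, hp, hv⟩ := exists_bval n m (by omega)
    exact ⟨p, by rw [mem_filter, mem_FS, hv]; exact ⟨hp, hm⟩, hv⟩

section own

variable (qU : Str × Str → ℕ → Prop) (qW : Str → ℕ → Prop) (qV : ℕ × IC → ℕ → Prop) (κ : Str)

/-- the programs on which the strategy for `κ` halts -/
def DomK (p : Str) : Prop :=
  p ≠ [] ∧ 2 * EE qU qW qV κ (p.length - 1) 0 ≤ bval p ∧ bval p < EE qU qW qV κ p.length 0

theorem domK_pf {p q : Str} (hp : DomK qU qW qV κ p) (hq : DomK qU qW qV κ q) (h : p <+: q) :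
    p = q := by
  rcases h.length_le.lt_or_eq with hl | hl
  · exfalso
    obtain ⟨r, rfl⟩ := h
    have hr : 0 < r.length := by rw [List.length_append] at hl; omega
    have h1 := hq.2.1
    rw [List.length_append, bval_append] at h1
    have h2 := bval_lt r
    have h3 := hp.2.2
    have h4 := EE_mono qU qW qV κ p.length (r.length - 1)
    have e1 : p.length + r.length - 1 = p.length + (r.length - 1) := by omega
    rw [e1] at h1
    have h5 : 2 ^ r.length = 2 * 2 ^ (r.length - 1) := by
      conv_lhs => rw [show r.length = (r.length - 1) + 1 by omega, pow_succ]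
      ring
    have h6 : (bval p + 1) * 2 ^ r.length ≤ EE qU qW qV κ p.length 0 * 2 ^ r.length :=
      Nat.mul_le_mul_right _ h3
    have h7 : 2 * (2 ^ (r.length - 1) * EE qU qW qV κ p.length 0) =
        EE qU qW qV κ p.length 0 * 2 ^ r.length := by rw [h5]; ring
    nlinarith
  · exact h.eq_of_length hl

open Classical in
/-- the programs of the opponent with length at most `|κ| + s` -/
noncomputable def own (s : ℕ) : Finset Str :=
  ((upTo s).toFinset.filter fun p => DomK qU qW qV κ p).image fun p => κ ++ p

theorem mem_own {s : ℕ} {q : Str} : q ∈ own qU qW qV κ s ↔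
    ∃ p, p.length ≤ s ∧ DomK qU qW qV κ p ∧ q = κ ++ p := by
  unfold own
  simp only [mem_image, mem_filter, List.mem_toFinset, mem_upTo]
  constructor
  · rintro ⟨p, ⟨h1, h2⟩, h3⟩; exact ⟨p, h1, h2, h3.symm⟩
  · rintro ⟨p, h1, h2, h3⟩; exact ⟨p, ⟨h1, h2⟩, h3.symm⟩

theorem TT2_pos : 0 < TT2 κ := by unfold TT2; positivity

theorem vs_zero : vs qU qW qV κ 0 = 0 := by
  unfold vs
  rw [EE_zero _ _ _ _ (Nat.zero_le _), if_neg (by have := TT2_pos κ; omega)]
  simp

theorem wt_own (s : ℕ) : wt (own qU qW qV κ s) = ww κ * vs qU qW qV κ s := by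
  classical
  induction s with
  | zero =>
    have : own qU qW qV κ 0 = ∅ := by
      ext q
      rw [mem_own]
      simp only [notMem_empty, iff_false]
      rintro ⟨p, h1, h2, -⟩
      exact h2.1 (List.length_eq_zero_iff.1 (by omega))
    rw [this, wt_empty, vs_zero, mul_zero]
  | succ s ih =>
    set F := (FS (s + 1)).filter fun p =>
      2 * EE qU qW qV κ s 0 ≤ bval p ∧ bval p < EE qU qW qV κ (s + 1) 0 with hF
    have h1 : own qU qW qV κ (s + 1) = own qU qW qV κ s ∪ F.image (fun p => κ ++ p) := by
      ext q
      rw [mem_union, mem_own, mem_own, mem_image]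
      constructor
      · rintro ⟨p, h1, h2, h3⟩
        rcases Nat.lt_or_ge p.length (s + 1) with h4 | h4
        · exact Or.inl ⟨p, by omega, h2, h3⟩
        · have h5 : p.length = s + 1 := by omega
          refine Or.inr ⟨p, ?_, h3.symm⟩
          rw [hF, mem_filter, mem_FS]
          have h6 := h2.2
          rw [h5] at h6
          exact ⟨h5, h6⟩
      · rintro (⟨p, h1, h2, h3⟩ | ⟨p, h1, h3⟩)
        · exact ⟨p, by omega, h2, h3⟩
        · rw [hF, mem_filter, mem_FS] at h1
          refine ⟨p, by omega, ⟨?_, ?_⟩, h3.symm⟩
          · rintro rfl; simp at h1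
          · rw [h1.1]; exact h1.2
    have h2 : Disjoint (own qU qW qV κ s) (F.image (fun p => κ ++ p)) := by
      rw [Finset.disjoint_left]
      intro q hq hq'
      rw [mem_own] at hq
      rw [mem_image] at hq'
      obtain ⟨p, h1, -, h3⟩ := hq
      obtain ⟨p', h1', h3'⟩ := hq'
      rw [hF, mem_filter, mem_FS] at h1'
      have : p' = p := List.append_cancel_left (h3'.trans h3)
      subst this
      omega
    have h3 : wt (F.image (fun p => κ ++ p)) =
        ww κ * (vs qU qW qV κ (s + 1) - vs qU qW qV κ s) := by
      unfold wt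
      rw [Finset.sum_image (fun p _ q _ h => List.append_cancel_left h)]
      have h4 : ∀ p ∈ F, (1 / 2 : ℝ) ^ (κ ++ p).length = ww κ * (1 / 2) ^ (s + 1) := by
        intro p hp
        rw [hF, mem_filter, mem_FS] at hp
        rw [List.length_append, hp.1, pow_add]
        rfl
      rw [Finset.sum_congr rfl h4, Finset.sum_const, hF, card_bval (EE_le _ _ _ _ _ _),
        nsmul_eq_mul, Nat.cast_sub (EE_mono_step _ _ _ _ _)]
      unfold vs
      push_cast
      rw [pow_succ, pow_succ, one_div, inv_pow]
      field_simp
    rw [h1, wt_union h2, ih, h3]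
    ring

end own

/-- the string `1^n 0` -/
def cod (n : ℕ) : Str := (List.range n).map (fun _ => true) ++ [false]

/-- the guess with number `n` for the place where the opponent lives -/
def kap (n : ℕ) : Str := ((decode n : Option Str).getD []) ++ cod n

theorem pr_cod : Primrec cod :=
  Primrec.list_append.comp (Primrec.list_map Primrec.list_range (Primrec.const true).to₂)
    (Primrec.const [false])

theorem pr_kap : Primrec kap :=
  Primrec.list_append.comp (Primrec.option_getD.comp Primrec.decode (Primrec.const [])) pr_cod

/-- the number of leading ones -/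
def lead (r : Str) : ℕ := r.findIdx fun b => decide (b = false)

theorem pr_lead : Primrec lead := by
  unfold lead
  exact Primrec.list_findIdx Primrec.id (Primrec.eq.comp Primrec.snd (Primrec.const false)).decide

theorem length_cod (n : ℕ) : (cod n).length = n + 1 := by simp [cod]

theorem lead_cod (n : ℕ) (p : Str) : lead (cod n ++ p) = n := by
  unfold lead
  rw [List.findIdx_eq (by rw [List.length_append, length_cod]; omega)]
  constructor
  · rw [List.getElem_append_left (by rw [length_cod]; omega)]
    simp [cod]
  · intro j hj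
    rw [List.getElem_append_left (by rw [length_cod]; omega)]
    simp [cod, List.getElem_append_left, hj]

theorem eq_cod {r : Str} (h : lead r < r.length) : r = cod (lead r) ++ r.drop (lead r + 1) := by
  induction r with
  | nil => simp at h
  | cons b r ih =>
    cases b with
    | false => simp [lead, cod, List.findIdx_cons]
    | true =>
      have h1 : lead (true :: r) = lead r + 1 := by
        simp [lead, List.findIdx_cons]
      rw [h1] at h ⊢
      have h2 := ih (by simpa using h)
      have h3 : cod (lead r + 1) = true :: cod (lead r) := by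
        unfold cod
        rw [List.range_succ_eq_map]
        simp
      rw [h3, List.drop_succ_cons, List.cons_append, ← h2]

section mach

variable (qU : Str × Str → ℕ → Prop) (qW : Str → ℕ → Prop) (qV : ℕ × IC → ℕ → Prop)

/-- the domain of the machine -/
def DomM (r : Str) : Prop :=
  lead r < r.length ∧ DomK qU qW qV (kap (lead r)) (r.drop (lead r + 1))

open Classical in
/-- the machine that plays all the strategies -/
noncomputable def MM (x0 : Str) (r : Str) : Part Str :=
  ((if DomM qU qW qV r then some x0 else none : Option Str) : Part Str)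

variable {qU qW qV}

theorem domM_cod (n : ℕ) (p : Str) :
    DomM qU qW qV (cod n ++ p) ↔ DomK qU qW qV (kap n) p := by
  unfold DomM
  rw [lead_cod]
  have h1 : n < (cod n ++ p).length := by rw [List.length_append, length_cod]; omega
  have h2 : (cod n ++ p).drop (n + 1) = p := by
    rw [List.drop_append_of_le_length (by rw [length_cod]), List.drop_of_length_le (by
      rw [length_cod]), List.nil_append]
  rw [h2]
  exact ⟨fun h => h.2, fun h => ⟨h1, h⟩⟩

theorem domM_pf {r r' : Str} (h : DomM qU qW qV r) (h' : DomM qU qW qV r') (hp : r <+: r') :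
    r = r' := by
  have e1 := eq_cod h.1
  have e2 := eq_cod h'.1
  obtain ⟨t, ht⟩ := hp
  have h3 : lead r' = lead r := by
    rw [← ht]
    conv_lhs => rw [e1]
    rw [List.append_assoc, lead_cod]
  have h4 := h'.2
  have h5 := h.2
  rw [h3] at h4
  have h6 : r.drop (lead r + 1) <+: r'.drop (lead r + 1) := by
    refine ⟨t, ?_⟩
    rw [← ht, List.drop_append_of_le_length (by have := h.1; omega)]
  have h7 := domK_pf qU qW qV _ h5 h4 h6
  rw [e1, e2, h3, h7]

theorem pr_EE (hU : PrimrecRel qU) (hW : PrimrecRel qW) (hV : PrimrecRel qV) {α : Type}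
    [Primcodable α] {κ : α → Str} {s : α → ℕ} (hκ : Primrec κ) (hs : Primrec s) :
    Primrec fun a => EE qU qW qV (κ a) (s a) 0 := by
  unfold EE
  exact pr_gE ((pr_ST2 hU hW hV).comp hκ hs) (Primrec.const 0)

theorem pr_DomM (hU : PrimrecRel qU) (hW : PrimrecRel qW) (hV : PrimrecRel qV) :
    PrimrecPred (DomM qU qW qV) := by
  unfold DomM DomK
  have hp : Primrec fun r : Str => r.drop (lead r + 1) :=
    Primrec.list_drop.comp (Primrec.succ.comp pr_lead) Primrec.id
  have hk : Primrec fun r : Str => kap (lead r) := pr_kap.comp pr_lead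
  refine PrimrecPred.and ?_ (PrimrecPred.and (PrimrecPred.not ?_) (PrimrecPred.and ?_ ?_))
  · exact Primrec.nat_lt.comp pr_lead Primrec.list_length
  · exact Primrec.eq.comp hp (Primrec.const [])
  · refine Primrec.nat_le.comp (Primrec.nat_mul.comp (Primrec.const 2) (pr_EE hU hW hV hk ?_))
      (primrec_bval.comp hp)
    exact Primrec.nat_sub.comp (Primrec.list_length.comp hp) (Primrec.const 1)
  · exact Primrec.nat_lt.comp (primrec_bval.comp hp)
      (pr_EE hU hW hV hk (Primrec.list_length.comp hp))

theorem pf_MM (hU : PrimrecRel qU) (hW : PrimrecRel qW) (hV : PrimrecRel qV) (x0 : Str) :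
    PFMachine (MM qU qW qV x0) := by
  classical
  refine ⟨?_, fun r r' h h' hp => ?_⟩
  · have h1 : Primrec fun r : Str => (if DomM qU qW qV r then some x0 else none : Option Str) :=
      Primrec.ite (pr_DomM hU hW hV) (Primrec.const _) (Primrec.const _)
    exact h1.to_comp.ofOption
  · have key : ∀ q, (MM qU qW qV x0 q).Dom → DomM qU qW qV q := by
      intro q hq
      by_contra hc
      unfold MM at hq
      rw [if_neg hc] at hq
      exact hq
    exact domM_pf (key r h) (key r' h') hp

theorem mem_MM {x0 x r : Str} : x ∈ MM qU qW qV x0 r ↔ DomM qU qW qV r ∧ x = x0 := by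
  unfold MM
  by_cases h : DomM qU qW qV r
  · rw [if_pos h]
    simp [h]
  · rw [if_neg h]
    simp [h]

end mach

end Pool.Agent.Y549.Om
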