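import Pool.Agent.Y549.Om.State
import Pool.Agent.H561R3.Om.Meas

set_option autoImplicit false

/-!
Masses of finite sets of programs and the basic inequality for a block of stages.
-/

namespace Pool.Agent.Y549.Om

open Encodable Pool.Agent.Helper227 Pool.Agent.H561R3 Pool.Agent.H561R3.Om Finset

/-- the mass of a finite set of programs -/
noncomputable def wt (F : Finset Str) : ℝ := ∑ p ∈ F, (1 / 2 : ℝ) ^ p.length

theorem wt_nonneg (F : Finset Str) : 0 ≤ wt F := Finset.sum_nonneg fun _ _ => by positivity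

theorem wt_empty : wt ∅ = 0 := rfl

theorem wt_mono {F G : Finset Str} (h : F ⊆ G) : wt F ≤ wt G :=
  Finset.sum_le_sum_of_subset_of_nonneg h fun _ _ _ => by positivity

theorem wt_union {F G : Finset Str} (h : Disjoint F G) : wt (F ∪ G) = wt F + wt G :=
  Finset.sum_union h

theorem wt_sdiff {F G : Finset Str} (h : G ⊆ F) : wt (F \ G) = wt F - wt G := by
  have h1 : F \ G ∪ G = F := Finset.sdiff_union_of_subset h
  have h2 : wt F = wt (F \ G) + wt G := by
    conv_lhs => rw [← h1]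
    exact wt_union Finset.sdiff_disjoint
  linarith

/-- decomposition of the mass along a set -/
theorem wt_split (F G : Finset Str) : wt F = wt (F ∩ G) + wt (F \ G) := by
  have h1 : F ∩ G ∪ F \ G = F := by
    ext x; simp only [mem_union, mem_inter, mem_sdiff]; tauto
  conv_lhs => rw [← h1]
  refine wt_union ?_
  rw [Finset.disjoint_left]
  intro x hx hx'
  rw [mem_inter] at hx
  rw [mem_sdiff] at hx'
  exact hx'.2 hx.2

theorem block (f : ℝ → ℝ) (γ : ℝ) (hf0 : ∀ x, 0 ≤ f x) (hfγ : ∀ x, f x ≤ γ) (hm : Monotone f)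
    (hl : ∀ y z, y ≤ z → f z ≤ f y + (z - y)) {Ba Bb Be Db De : Finset Str}
    (hab : Ba ⊆ Bb) (hbe : Bb ⊆ Be) (hD : Db ⊆ De) (hDb : Db ⊆ Bb) (hDe : De ⊆ Be)
    {x y δ o : ℝ} (hx : x = wt (Bb \ Db) + o) (hy : y = wt (Be \ De) + o + δ)
    (hg : f x + δ ≤ f (x + δ)) :
    f x + δ ≤ f y + γ * (((De ∩ Ba).card : ℝ) - ((Db ∩ Ba).card : ℝ)) +
      (wt (De \ Ba) - wt (Db \ Ba) - wt (De \ Bb)) := by
  -- the mass that leaves and was born between `a` and `b`
  set O := wt ((De \ Db) ∩ (Bb \ Ba)) with hO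
  have hO0 : 0 ≤ O := wt_nonneg _
  have hQ : wt (De \ Ba) - wt (Db \ Ba) - wt (De \ Bb) = O := by
    have h1 : De \ Ba = (De \ Bb) ∪ ((Db \ Ba) ∪ ((De \ Db) ∩ (Bb \ Ba))) := by
      ext p
      simp only [mem_union, mem_inter, mem_sdiff]
      have := @hab p
      have := @hDb p
      have := @hD p
      tauto
    rw [h1, wt_union, wt_union]
    · ring
    · rw [Finset.disjoint_left]
      intro p hp hp'
      simp only [mem_inter, mem_sdiff] at hp hp'
      exact hp'.1.2 hp.1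
    · rw [Finset.disjoint_left]
      intro p hp hp'
      simp only [mem_union, mem_inter, mem_sdiff] at hp hp'
      rcases hp' with h | h
      · exact hp.2 (hDb h.1)
      · exact hp.2 h.2.1
  rw [hQ]
  have hcard : ((Db ∩ Ba).card : ℝ) ≤ ((De ∩ Ba).card : ℝ) := by
    exact_mod_cast Finset.card_le_card (Finset.inter_subset_inter_right hD)
  have hγ0 : 0 ≤ γ := (hf0 0).trans (hfγ 0)
  by_cases hc : (De \ Db) ∩ Ba = ∅
  · -- no old program leaves
    have h1 : wt (Be \ De) ≥ wt (Bb \ Db) - O := by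
      have h2 : Bb \ Db = (Bb \ De) ∪ ((De \ Db) ∩ (Bb \ Ba)) := by
        ext p
        simp only [mem_union, mem_inter, mem_sdiff]
        have h3 : p ∉ (De \ Db) ∩ Ba := by rw [hc]; simp
        simp only [mem_inter, mem_sdiff] at h3
        have := @hD p
        tauto
      have h3 : wt (Bb \ Db) = wt (Bb \ De) + O := by
        rw [h2, wt_union]
        rw [Finset.disjoint_left]
        intro p hp hp'
        simp only [mem_inter, mem_sdiff] at hp hp'
        exact hp.2 hp'.1.1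
      have h4 : wt (Bb \ De) ≤ wt (Be \ De) := wt_mono (Finset.sdiff_subset_sdiff hbe le_rfl)
      linarith
    have h2 : x + δ - O ≤ y := by rw [hx, hy]; linarith
    have h3 := hm h2
    have h4 := hl (x + δ - O) (x + δ) (by linarith)
    have h5 : 0 ≤ γ * (((De ∩ Ba).card : ℝ) - ((Db ∩ Ba).card : ℝ)) :=
      mul_nonneg hγ0 (by linarith)
    linarith
  · have h1 : ((Db ∩ Ba).card : ℝ) + 1 ≤ ((De ∩ Ba).card : ℝ) := by
      have h2 : Db ∩ Ba ⊂ De ∩ Ba := by
        refine ⟨Finset.inter_subset_inter_right hD, fun h => hc ?_⟩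
        ext p
        simp only [mem_inter, mem_sdiff, notMem_empty, iff_false]
        rintro ⟨⟨h3, h4⟩, h5⟩
        exact h4 (Finset.mem_inter.1 (h (Finset.mem_inter.2 ⟨h3, h5⟩))).1
      exact_mod_cast Finset.card_lt_card h2
    have h2 : γ ≤ γ * (((De ∩ Ba).card : ℝ) - ((Db ∩ Ba).card : ℝ)) := by nlinarith
    have h3 := hfγ (x + δ)
    have h4 := hf0 y
    linarith

theorem nodup_upTo (s : ℕ) : (upTo s).Nodup := by
  unfold upTo
  rw [List.nodup_flatMap]
  refine ⟨fun n _ => nodup_strs n, ?_⟩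
  refine List.Pairwise.imp ?_ (List.nodup_range (n := s + 1))
  intro a b hab
  simp only [Function.onFun, List.Disjoint]
  intro x hx hx'
  rw [mem_strs] at hx hx'
  exact hab (hx.symm.trans hx')

section mass

open Classical

variable (qU : Str × Str → ℕ → Prop) (qW : Str → ℕ → Prop) (κ : Str)

/-- the programs, not extending `κ`, that have halted by stage `s` -/
noncomputable def BB (s : ℕ) : Finset Str := (upTo s).toFinset.filter fun p => bornP qU κ s p

/-- those whose output has left the set -/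
noncomputable def DD (s : ℕ) : Finset Str := (upTo s).toFinset.filter fun p => goneP qU qW κ s p

theorem mem_BB {s : ℕ} {p : Str} : p ∈ BB qU κ s ↔ bornP qU κ s p := by
  unfold BB
  rw [mem_filter, List.mem_toFinset, mem_upTo]
  exact ⟨fun h => h.2, fun h => ⟨h.1, h⟩⟩

theorem mem_DD {s : ℕ} {p : Str} : p ∈ DD qU qW κ s ↔ goneP qU qW κ s p := by
  unfold DD
  rw [mem_filter, List.mem_toFinset, mem_upTo]
  exact ⟨fun h => h.2, fun h => ⟨h.1.1, h⟩⟩

theorem DD_sub (s : ℕ) : DD qU qW κ s ⊆ BB qU κ s := fun p hp =>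
  (mem_BB qU κ).2 ((mem_DD qU qW κ).1 hp).1

theorem nb_eq (s : ℕ) : (nb qU qW κ s : ℝ) / 2 ^ s = wt (BB qU κ s \ DD qU qW κ s) := by
  unfold nb wt
  rw [← List.sum_toFinset _ (nodup_upTo s), ← Finset.sum_filter]
  have h1 : (upTo s).toFinset.filter (fun p => bornP qU κ s p ∧ ¬ goneP qU qW κ s p) =
      BB qU κ s \ DD qU qW κ s := by
    ext p
    rw [mem_filter, mem_sdiff, mem_BB, mem_DD, List.mem_toFinset, mem_upTo]
    exact ⟨fun h => h.2, fun h => ⟨h.1.1, h⟩⟩
  rw [h1]
  push_cast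
  rw [Finset.sum_div]
  refine Finset.sum_congr rfl fun p hp => ?_
  rw [mem_sdiff, mem_BB] at hp
  rw [pow_sub₀ _ (by norm_num) hp.1.1]
  field_simp
  rw [one_div, inv_pow]
  field_simp

variable {qU qW}

theorem BB_mono (hU : ∀ a m n, m ≤ n → qU a m → qU a n) {s t : ℕ} (h : s ≤ t) :
    BB qU κ s ⊆ BB qU κ t := by
  intro p hp
  rw [mem_BB] at hp ⊢
  obtain ⟨h1, h2, x, hx, h3⟩ := hp
  exact ⟨h1.trans h, h2, x, cand_mono h hx, hU _ _ _ h h3⟩

theorem DD_mono (hU : ∀ a m n, m ≤ n → qU a m → qU a n) (hW : ∀ a m n, m ≤ n → qW a m → qW a n)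
    {s t : ℕ} (h : s ≤ t) : DD qU qW κ s ⊆ DD qU qW κ t := by
  intro p hp
  rw [mem_DD] at hp ⊢
  obtain ⟨h1, x, hx, h3, h4⟩ := hp
  exact ⟨(mem_BB qU κ).1 (BB_mono κ hU h ((mem_BB qU κ).2 h1)), x, cand_mono h hx, hU _ _ _ h h3,
    hW _ _ _ h h4⟩

end mass

end Pool.Agent.Y549.Om
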