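import Pool.Agent.Y549.Om.Mass

set_option autoImplicit false

/-!
The analysis of the nested strategy.
-/

namespace Pool.Agent.Y549.Om

open Encodable Pool.Agent.Helper227 Pool.Agent.H561R3 Pool.Agent.H561R3.Om Finset Filter Topology
  MeasureTheory

section phase

variable (qU : Str × Str → ℕ → Prop) (qW : Str → ℕ → Prop) (qV : ℕ × IC → ℕ → Prop) (κ : Str)

/-- what has been spent -/
noncomputable def vs (s : ℕ) : ℝ := (EE qU qW qV κ s 0 : ℝ) / 2 ^ s

/-- the weight of the opponent -/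
noncomputable def ww : ℝ := (1 / 2 : ℝ) ^ κ.length

/-- the current mass of the set, what has been spent included -/
noncomputable def XX (s : ℕ) : ℝ := wt (BB qU κ s \ DD qU qW κ s) + ww κ * vs qU qW qV κ s

theorem ww_pos : 0 < ww κ := by unfold ww; positivity

theorem ww_le : ww κ ≤ 1 := by
  unfold ww
  exact pow_le_one₀ (by norm_num) (by norm_num)

theorem NN_eq (s : ℕ) : (NN qU qW κ s (EE qU qW qV κ s 0) : ℝ) / 2 ^ (s + κ.length) =
    XX qU qW qV κ s := by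
  unfold NN XX vs ww
  rw [← nb_eq]
  push_cast
  rw [pow_add, one_div, inv_pow]
  field_simp

theorem act_iff (s c r : ℕ) : Act qU qW qV κ s (EE qU qW qV κ s 0) c r ↔
    ∃ t ∈ cand IC s, qV (c, t) s ∧ ratOf t.1 < XX qU qW qV κ s ∧
      XX qU qW qV κ s + ww κ * ((r : ℝ) / 2 ^ s) ≤ ratOf t.2 := by
  unfold Act
  refine exists_congr fun t => and_congr_right fun _ => and_congr_right fun _ => ?_
  rw [← NN_eq]
  set n := NN qU qW κ s (EE qU qW qV κ s 0) with hn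
  have h2 : (0 : ℝ) < 2 ^ (s + κ.length) := by positivity
  have h3 : ww κ * ((r : ℝ) / 2 ^ s) = (r : ℝ) / 2 ^ (s + κ.length) := by
    unfold ww
    rw [pow_add, one_div, inv_pow]
    field_simp
  rw [h3, ← add_div]
  unfold ratOf
  refine and_congr ?_ ?_
  · rw [div_lt_div_iff₀ (by positivity) h2]
    rw [← @Nat.cast_lt ℝ]
    push_cast
    constructor <;> intro h <;> linarith
  · rw [div_le_div_iff₀ h2 (by positivity)]
    rw [← @Nat.cast_le ℝ]
    push_cast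
    constructor <;> intro h <;> linarith

/-- everything that is needed about the environment -/
structure Env (V : ℕ → Set IC) (α : ℝ) : Prop where
  mU : ∀ a m n, m ≤ n → qU a m → qU a n
  mW : ∀ a m n, m ≤ n → qW a m → qW a n
  mV : ∀ a m n, m ≤ n → qV a m → qV a n
  vol : ∀ n, volume (openOf (V n)) ≤ ENNReal.ofReal ((1 / 2 : ℝ) ^ n)
  sV : ∀ c t s, qV (c, t) s → t ∈ V c
  cV : ∀ c t, t ∈ V c → ∃ s, qV (c, t) s
  pf : ∀ s, ∀ p ∈ BB qU κ s, ∀ q ∈ BB qU κ s, p <+: q → p = q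
  lim : Tendsto (XX qU qW qV κ) atTop (𝓝 α)
  mem : ∀ c, α ∈ openOf (V c)

/-- mass born after stage `a` that has left by stage `t` -/
noncomputable def QQ (a t : ℕ) : ℝ := wt (DD qU qW κ t \ BB qU κ a)

/-- number of the programs born by stage `a` that have left by stage `t` -/
noncomputable def CC (a t : ℕ) : ℝ := ((DD qU qW κ t ∩ BB qU κ a).card : ℝ)

theorem QQ_nonneg (a t : ℕ) : 0 ≤ QQ qU qW κ a t := wt_nonneg _

theorem QQ_self (a : ℕ) : QQ qU qW κ a a = 0 := by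
  unfold QQ
  rw [Finset.sdiff_eq_empty_iff_subset.2 (DD_sub qU qW κ a), wt_empty]

/-- the phases of level `h` succeed -/
def PP (h : ℕ) : Prop := ∀ a, 0 < AM qU qW qV κ a → LV qU qW qV κ a = h + 1 →
  ∃ e, a < e ∧ vs qU qW qV κ e = vs qU qW qV κ a + (AM qU qW qV κ a : ℝ) / 2 ^ a ∧
    (∀ l, h + 1 ≤ l → (EE qU qW qV κ e l : ℝ) / 2 ^ e = (EE qU qW qV κ a l : ℝ) / 2 ^ a) ∧
    (∀ l, h + 1 ≤ l → l ≤ TT2 κ → SS qU qW qV κ e l = SS qU qW qV κ a l) ∧
    (∀ l ≤ h, EE qU qW qV κ e l ≤ EE qU qW qV κ e 0) ∧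
    (h : ℝ) / 2 * ww κ * ((AM qU qW qV κ a : ℝ) / 2 ^ a) ≤ QQ qU qW κ a e

/-- the invariant of a phase of level `h + 1` -/
structure Inv (V : ℕ → Set IC) (h a : ℕ) (τ : ℝ) (t : ℕ) : Prop where
  le : a ≤ t
  tgt : (EE qU qW qV κ t (h + 1) : ℝ) / 2 ^ t = τ
  st : SS qU qW qV κ t (h + 1) = a
  low : ∀ l ≤ h, EE qU qW qV κ t l ≤ EE qU qW qV κ t 0
  vle : vs qU qW qV κ t ≤ τ
  pot : ((h : ℝ) / 2 + 1) * ww κ * (vs qU qW qV κ t - vs qU qW qV κ a) ≤
    QQ qU qW κ a t + (1 / 2 : ℝ) ^ (2 * a + kk κ) * (CC qU qW κ a t - CC qU qW κ a a) +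
      vv V (2 * a + kk κ) (XX qU qW qV κ t) - vv V (2 * a + kk κ) (XX qU qW qV κ a)

variable {qU qW qV κ} {V : ℕ → Set IC} {α : ℝ}

theorem blk (E : Env qU qW qV κ V α) (c : ℕ) {a b e : ℕ} {δ : ℝ} (hab : a ≤ b) (hbe : b ≤ e)
    (hδ : ww κ * (vs qU qW qV κ e - vs qU qW qV κ b) = δ)
    (hg : vv V c (XX qU qW qV κ b) + δ ≤ vv V c (XX qU qW qV κ b + δ)) :
    vv V c (XX qU qW qV κ b) + δ ≤ vv V c (XX qU qW qV κ e) +
      (1 / 2 : ℝ) ^ c * (CC qU qW κ a e - CC qU qW κ a b) +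
      (QQ qU qW κ a e - QQ qU qW κ a b - QQ qU qW κ b e) := by
  refine block (vv V c) _ (fun x => ENNReal.toReal_nonneg) (vv_le E.vol c) (vv_mono E.vol c)
    (vv_lip E.vol c) (BB_mono κ E.mU hab) (BB_mono κ E.mU hbe) (DD_mono κ E.mU E.mW hbe)
    (DD_sub qU qW κ b) (DD_sub qU qW κ e) (o := ww κ * vs qU qW qV κ b) rfl ?_ hg
  unfold XX
  linarith

/-- a step without action, or with an action at a high level -/
theorem blk0 (E : Env qU qW qV κ V α) (c : ℕ) {a b e : ℕ} (hab : a ≤ b) (hbe : b ≤ e)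
    (hδ : vs qU qW qV κ e = vs qU qW qV κ b) :
    vv V c (XX qU qW qV κ b) + QQ qU qW κ a b ≤ vv V c (XX qU qW qV κ e) +
      (1 / 2 : ℝ) ^ c * (CC qU qW κ a e - CC qU qW κ a b) + QQ qU qW κ a e := by
  have h := blk E c (δ := 0) hab hbe (by rw [hδ]; ring) (by simp)
  have h2 := QQ_nonneg qU qW κ b e
  linarith

theorem vs_idle {s : ℕ} (h : AM qU qW qV κ s = 0) :
    vs qU qW qV κ (s + 1) = vs qU qW qV κ s := by
  unfold vs
  rw [EE_idle _ _ _ _ h, pow_succ]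
  push_cast
  field_simp

theorem re_idle {s l : ℕ} (h : AM qU qW qV κ s = 0) :
    (EE qU qW qV κ (s + 1) l : ℝ) / 2 ^ (s + 1) = (EE qU qW qV κ s l : ℝ) / 2 ^ s := by
  rw [EE_idle _ _ _ _ h, pow_succ]
  push_cast
  field_simp

theorem re_act {s l : ℕ} (h : 0 < AM qU qW qV κ s) (hl : l + 1 ≠ LV qU qW qV κ s) :
    (EE qU qW qV κ (s + 1) l : ℝ) / 2 ^ (s + 1) = (EE qU qW qV κ s l : ℝ) / 2 ^ s := by
  rw [EE_act _ _ _ _ h hl, pow_succ]
  push_cast
  field_simp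

theorem re_act' {s l : ℕ} (h : 0 < AM qU qW qV κ s) (hl : l + 1 = LV qU qW qV κ s) :
    (EE qU qW qV κ (s + 1) l : ℝ) / 2 ^ (s + 1) =
      vs qU qW qV κ s + (AM qU qW qV κ s : ℝ) / 2 ^ s := by
  rw [EE_act' _ _ _ _ h hl, pow_succ]
  unfold vs
  push_cast
  field_simp

theorem loop_step (E : Env qU qW qV κ V α) {h a t : ℕ} {τ : ℝ} (hP : PP qU qW qV κ h)
    (hh : h + 1 ≤ TT2 κ) (I : Inv qU qW qV κ V h a τ t) (hlt : vs qU qW qV κ t < τ) :
    ∃ t', t < t' ∧ Inv qU qW qV κ V h a τ t' ∧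
      vs qU qW qV κ t' = vs qU qW qV κ t + (AM qU qW qV κ t : ℝ) / 2 ^ t ∧
      (∀ l, h + 2 ≤ l → (EE qU qW qV κ t' l : ℝ) / 2 ^ t' = (EE qU qW qV κ t l : ℝ) / 2 ^ t) ∧
      (∀ l, h + 2 ≤ l → l ≤ TT2 κ → SS qU qW qV κ t' l = SS qU qW qV κ t l) := by
  have hlt' : EE qU qW qV κ t 0 < EE qU qW qV κ t (h + 1) := by
    have h1 := hlt
    rw [← I.tgt] at h1
    unfold vs at h1
    rw [div_lt_div_iff_of_pos_right (by positivity)] at h1
    exact_mod_cast h1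
  have hLV : LV qU qW qV κ t = h + 1 := by
    refine LV_eq _ _ _ _ hlt' fun l hl => I.low l (by omega)
  by_cases h0 : AM qU qW qV κ t = 0
  · refine ⟨t + 1, by omega, ⟨by have := I.le; omega, ?_, ?_, ?_, ?_, ?_⟩, ?_, ?_, ?_⟩
    · rw [re_idle h0]; exact I.tgt
    · rw [SS_idle _ _ _ _ h0 hh]; exact I.st
    · intro l hl
      rw [EE_idle _ _ _ _ h0, EE_idle _ _ _ _ h0]
      exact Nat.mul_le_mul_left 2 (I.low l hl)
    · rw [vs_idle h0]; exact I.vle
    · have h1 := blk0 E (2 * a + kk κ) I.le (Nat.le_succ t) (vs_idle h0)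
      have h2 := I.pot
      rw [vs_idle h0]
      have h3 : (1 / 2 : ℝ) ^ (2 * a + kk κ) * (CC qU qW κ a (t + 1) - CC qU qW κ a a) =
        (1 / 2 : ℝ) ^ (2 * a + kk κ) * (CC qU qW κ a (t + 1) - CC qU qW κ a t) +
        (1 / 2 : ℝ) ^ (2 * a + kk κ) * (CC qU qW κ a t - CC qU qW κ a a) := by ring
      rw [h3]
      simp only [Nat.succ_eq_add_one] at h1
      linarith
    · rw [vs_idle h0, h0]; simp
    · intro l _; exact re_idle h0
    · intro l _ hl; exact SS_idle _ _ _ _ h0 hl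
  · have h0' : 0 < AM qU qW qV κ t := by omega
    obtain ⟨e, he1, he2, he3, he4, he5, he6⟩ := hP t h0' hLV
    refine ⟨e, he1, ⟨by have := I.le; omega, ?_, ?_, he5, ?_, ?_⟩, he2, fun l hl =>
      he3 l (by omega), fun l hl hl' => he4 l (by omega) hl'⟩
    · rw [he3 (h + 1) le_rfl]; exact I.tgt
    · rw [he4 (h + 1) le_rfl hh]; exact I.st
    · rw [he2]
      have h1 := AM_add_le qU qW qV κ h0'
      rw [hLV] at h1
      have h2 : (EE qU qW qV κ t 0 : ℝ) + AM qU qW qV κ t ≤ EE qU qW qV κ t (h + 1) := by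
        exact_mod_cast h1
      rw [← I.tgt]
      unfold vs
      rw [← add_div]
      exact div_le_div_of_nonneg_right h2 (by positivity)
    · have h1 := act_AM qU qW qV κ h0'
      rw [hLV, I.st, act_iff] at h1
      obtain ⟨u, _, hu2, hu3, hu4⟩ := h1
      have h2 := vv_grow E.vol (2 * a + kk κ) (XX qU qW qV κ t)
        (ww κ * ((AM qU qW qV κ t : ℝ) / 2 ^ t)) (by have := ww_pos κ; positivity)
        (E.sV _ _ _ hu2) hu3 hu4
      have h3 := blk E (2 * a + kk κ) (a := a) (b := t) (e := e) I.le he1.le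
        (by rw [he2]; ring) h2
      have h4 := I.pot
      have h5 : (1 / 2 : ℝ) ^ (2 * a + kk κ) * (CC qU qW κ a e - CC qU qW κ a a) =
        (1 / 2 : ℝ) ^ (2 * a + kk κ) * (CC qU qW κ a e - CC qU qW κ a t) +
        (1 / 2 : ℝ) ^ (2 * a + kk κ) * (CC qU qW κ a t - CC qU qW κ a a) := by ring
      have h6 : ((h : ℝ) / 2 + 1) * ww κ * (vs qU qW qV κ e - vs qU qW qV κ a) =
        ((h : ℝ) / 2 + 1) * ww κ * (vs qU qW qV κ t - vs qU qW qV κ a) +
        (h : ℝ) / 2 * ww κ * ((AM qU qW qV κ t : ℝ) / 2 ^ t) +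
          ww κ * ((AM qU qW qV κ t : ℝ) / 2 ^ t) := by rw [he2]; ring
      rw [h5, h6]
      linarith

/-- late actions are large -/
theorem late (E : Env qU qW qV κ V α) (h a : ℕ) (τ : ℝ) : ∃ s1 : ℕ, ∃ δ : ℝ, 0 < δ ∧
    ∀ t, s1 ≤ t → Inv qU qW qV κ V h a τ t → vs qU qW qV κ t < τ →
      min (τ - vs qU qW qV κ t) δ ≤ (AM qU qW qV κ t : ℝ) / 2 ^ t := by
  obtain ⟨u, hu, hu1, hu2⟩ := E.mem (2 * a + kk κ)
  obtain ⟨s0, hs0⟩ := E.cV _ _ hu
  set η := (ratOf u.2 - α) / 2 with hη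
  have hη0 : 0 < η := by rw [hη]; linarith
  have e1 : ∀ᶠ s in atTop, ratOf u.1 < XX qU qW qV κ s := E.lim.eventually_const_lt hu1
  have e2 : ∀ᶠ s in atTop, XX qU qW qV κ s < α + η :=
    E.lim.eventually_lt_const (by linarith)
  have e3 : ∀ᶠ s : ℕ in atTop, (1 / 2 : ℝ) ^ s < η / 2 :=
    (tendsto_pow_atTop_nhds_zero_of_lt_one (by norm_num) (by norm_num)).eventually_lt_const
      (by linarith)
  obtain ⟨s1, hs1⟩ := eventually_atTop.1 (e1.and (e2.and (e3.and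
    ((eventually_ge_atTop s0).and (eventually_gt_atTop (encode u))))))
  refine ⟨s1, η / 2, by linarith, fun t ht I hlt => ?_⟩
  obtain ⟨g1, g2, g3, g4, g5⟩ := hs1 t ht
  have hlt' : EE qU qW qV κ t 0 < EE qU qW qV κ t (h + 1) := by
    have h1 := hlt
    rw [← I.tgt] at h1
    unfold vs at h1
    rw [div_lt_div_iff_of_pos_right (by positivity)] at h1
    exact_mod_cast h1
  have hLV : LV qU qW qV κ t = h + 1 := by
    refine LV_eq _ _ _ _ hlt' fun l hl => I.low l (by omega)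
  have p2 : (0 : ℝ) < 2 ^ t := by positivity
  set r := min (EE qU qW qV κ t (h + 1) - EE qU qW qV κ t 0) ⌊η * 2 ^ t⌋₊ with hr
  have hr1 : (r : ℝ) / 2 ^ t ≤ η := by
    rw [div_le_iff₀ p2]
    have : (r : ℝ) ≤ (⌊η * 2 ^ t⌋₊ : ℝ) := Nat.cast_le.2 (min_le_right _ _)
    exact this.trans (Nat.floor_le (by positivity))
  have hr2 : r ≤ AM qU qW qV κ t := by
    refine le_AM _ _ _ _ ?_ ?_
    · rw [hLV]; exact min_le_left _ _
    · rw [hLV, I.st, act_iff]
      refine ⟨u, mem_cand_of_encode g5, E.mV _ _ _ g4 hs0, g1, ?_⟩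
      have h1 : ww κ * ((r : ℝ) / 2 ^ t) ≤ η := by
        have h2 := ww_le κ
        have h3 := ww_pos κ
        have h4 : 0 ≤ (r : ℝ) / 2 ^ t := by positivity
        nlinarith
      linarith
  have hr3 : (r : ℝ) / 2 ^ t ≤ (AM qU qW qV κ t : ℝ) / 2 ^ t :=
    div_le_div_of_nonneg_right (by exact_mod_cast hr2) p2.le
  refine le_trans ?_ hr3
  rcases min_choice (EE qU qW qV κ t (h + 1) - EE qU qW qV κ t 0) ⌊η * 2 ^ t⌋₊ with h1 | h1
  · refine (min_le_left _ _).trans ?_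
    rw [hr, h1, Nat.cast_sub hlt'.le, sub_div, I.tgt]
    exact le_rfl
  · refine (min_le_right _ _).trans ?_
    rw [hr, h1, le_div_iff₀ p2]
    have h2 := Nat.lt_floor_add_one (η * 2 ^ t)
    have h3 : (1 : ℝ) ≤ η / 2 * 2 ^ t := by
      have h4 : (1 / 2 : ℝ) ^ t * 2 ^ t = 1 := by rw [← mul_pow]; norm_num
      nlinarith
    linarith

/-- a phase comes to its end -/
theorem loop (E : Env qU qW qV κ V α) {h a : ℕ} {τ : ℝ} (hP : PP qU qW qV κ h)
    (hh : h + 1 ≤ TT2 κ) {t : ℕ} (I : Inv qU qW qV κ V h a τ t) :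
    ∃ e, t ≤ e ∧ Inv qU qW qV κ V h a τ e ∧ vs qU qW qV κ e = τ ∧
      (∀ l, h + 2 ≤ l → (EE qU qW qV κ e l : ℝ) / 2 ^ e = (EE qU qW qV κ t l : ℝ) / 2 ^ t) ∧
      (∀ l, h + 2 ≤ l → l ≤ TT2 κ → SS qU qW qV κ e l = SS qU qW qV κ t l) := by
  obtain ⟨s1, δ, hδ, hlate⟩ := late E h a τ
  have key : ∀ N : ℕ, ∀ t, s1 ≤ t → Inv qU qW qV κ V h a τ t →
      τ - vs qU qW qV κ t ≤ N * δ →
      ∃ e, t ≤ e ∧ Inv qU qW qV κ V h a τ e ∧ vs qU qW qV κ e = τ ∧
      (∀ l, h + 2 ≤ l → (EE qU qW qV κ e l : ℝ) / 2 ^ e = (EE qU qW qV κ t l : ℝ) / 2 ^ t) ∧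
      (∀ l, h + 2 ≤ l → l ≤ TT2 κ → SS qU qW qV κ e l = SS qU qW qV κ t l) := by
    intro N
    induction N with
    | zero =>
      intro t _ I hN
      refine ⟨t, le_rfl, I, ?_, fun _ _ => rfl, fun _ _ _ => rfl⟩
      have := I.vle
      simp only [Nat.cast_zero, zero_mul] at hN
      linarith
    | succ N ih =>
      intro t ht I hN
      rcases I.vle.lt_or_eq with hlt | heq
      · obtain ⟨t', ht', I', hv, hE, hS⟩ := loop_step E hP hh I hlt
        have h1 := hlate t ht I hlt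
        have h2 : τ - vs qU qW qV κ t' ≤ N * δ := by
          push_cast at hN
          rcases min_le_iff.1 h1 with h3 | h3
          · have : 0 ≤ (N : ℝ) * δ := by positivity
            linarith
          · linarith
        obtain ⟨e, he, Ie, hve, hEe, hSe⟩ := ih t' (by omega) I' h2
        refine ⟨e, by omega, Ie, hve, fun l hl => ?_, fun l hl hl' => ?_⟩
        · rw [hEe l hl, hE l hl]
        · rw [hSe l hl hl', hS l hl hl']
      · exact ⟨t, le_rfl, I, heq, fun _ _ => rfl, fun _ _ _ => rfl⟩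
  have key2 : ∀ M : ℕ, ∀ t, s1 ≤ t + M → Inv qU qW qV κ V h a τ t →
      ∃ e, t ≤ e ∧ Inv qU qW qV κ V h a τ e ∧ vs qU qW qV κ e = τ ∧
      (∀ l, h + 2 ≤ l → (EE qU qW qV κ e l : ℝ) / 2 ^ e = (EE qU qW qV κ t l : ℝ) / 2 ^ t) ∧
      (∀ l, h + 2 ≤ l → l ≤ TT2 κ → SS qU qW qV κ e l = SS qU qW qV κ t l) := by
    intro M
    induction M with
    | zero =>
      intro t ht I
      obtain ⟨N, hN⟩ := exists_nat_ge ((τ - vs qU qW qV κ t) / δ)
      refine key N t (by omega) I ?_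
      rwa [div_le_iff₀ hδ] at hN
    | succ M ih =>
      intro t ht I
      rcases I.vle.lt_or_eq with hlt | heq
      · obtain ⟨t', ht', I', hv, hE, hS⟩ := loop_step E hP hh I hlt
        obtain ⟨e, he, Ie, hve, hEe, hSe⟩ := ih t' (by omega) I'
        refine ⟨e, by omega, Ie, hve, fun l hl => ?_, fun l hl hl' => ?_⟩
        · rw [hEe l hl, hE l hl]
        · rw [hSe l hl hl', hS l hl hl']
      · exact ⟨t, le_rfl, I, heq, fun _ _ => rfl, fun _ _ _ => rfl⟩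
  exact key2 s1 t (by omega) I

theorem card_BB (E : Env qU qW qV κ V α) (a : ℕ) : ((BB qU κ a).card : ℝ) ≤ 2 ^ a := by
  have h1 := kraft_nat (BB qU κ a) (E.pf a) a fun p hp => ((mem_BB qU κ).1 hp).1
  have h2 : (BB qU κ a).card ≤ ∑ p ∈ BB qU κ a, 2 ^ (a - p.length) := by
    rw [Finset.card_eq_sum_ones]
    exact Finset.sum_le_sum fun p _ => Nat.one_le_two_pow
  exact_mod_cast h2.trans h1

/-- the outcome of a finished phase -/
theorem outcome (E : Env qU qW qV κ V α) {h a e : ℕ} {τ : ℝ} (I : Inv qU qW qV κ V h a τ e)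
    (hv : vs qU qW qV κ e = τ) (hτ : (1 / 2 : ℝ) ^ a ≤ τ - vs qU qW qV κ a) :
    ((h + 1 : ℕ) : ℝ) / 2 * ww κ * (τ - vs qU qW qV κ a) ≤ QQ qU qW κ a e := by
  have h1 := I.pot
  rw [hv] at h1
  have h2 := vv_le E.vol (2 * a + kk κ) (XX qU qW qV κ e)
  have h3 : 0 ≤ vv V (2 * a + kk κ) (XX qU qW qV κ a) := ENNReal.toReal_nonneg
  have h4 : CC qU qW κ a e - CC qU qW κ a a ≤ 2 ^ a := by
    have h5 : CC qU qW κ a e ≤ ((BB qU κ a).card : ℝ) := by
      unfold CC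
      exact_mod_cast Finset.card_le_card Finset.inter_subset_right
    have h6 : 0 ≤ CC qU qW κ a a := by unfold CC; positivity
    have := card_BB E a
    linarith
  have hγ : (0 : ℝ) < (1 / 2 : ℝ) ^ (2 * a + kk κ) := by positivity
  have h5 : (1 / 2 : ℝ) ^ (2 * a + kk κ) * (CC qU qW κ a e - CC qU qW κ a a) ≤
      (1 / 2 : ℝ) ^ (2 * a + kk κ) * 2 ^ a := mul_le_mul_of_nonneg_left h4 hγ.le
  have h6 : (1 / 2 : ℝ) ^ (2 * a + kk κ) * 2 ^ a + (1 / 2 : ℝ) ^ (2 * a + kk κ) ≤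
      1 / 2 * ww κ * (1 / 2 : ℝ) ^ a := by
    have e1 : (1 / 2 : ℝ) ^ (2 * a + kk κ) =
        (1 / 2 : ℝ) ^ a * ((1 / 2 : ℝ) ^ a * ((1 / 2 : ℝ) ^ κ.length * (1 / 8))) := by
      unfold kk
      rw [show 2 * a + (κ.length + 3) = a + (a + (κ.length + 3)) by ring, pow_add, pow_add, pow_add]
      norm_num
    have e2 : (1 / 2 : ℝ) ^ a * 2 ^ a = 1 := by rw [← mul_pow]; norm_num
    have e3 : (1 / 2 : ℝ) ^ a ≤ 1 := pow_le_one₀ (by norm_num) (by norm_num)
    have e4 : (0 : ℝ) < (1 / 2 : ℝ) ^ a := by positivity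
    have e5 := ww_pos κ
    unfold ww at e5 ⊢
    rw [e1]
    set x := (1 / 2 : ℝ) ^ a with hx
    set w := (1 / 2 : ℝ) ^ κ.length with hw
    have e6 : x * (x * (w * (1 / 8))) * 2 ^ a = x * w * (1 / 8) * (x * 2 ^ a) := by ring
    rw [e6, e2]
    have e7 : x * (x * (w * (1 / 8))) ≤ x * w * (1 / 8) := by
      have : x * (x * (w * (1 / 8))) = x * (x * w * (1 / 8)) := by ring
      rw [this]
      have e8 : 0 ≤ x * w * (1 / 8) := by positivity
      nlinarith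
    nlinarith [mul_pos e4 e5]
  have h7 : 1 / 2 * ww κ * (1 / 2 : ℝ) ^ a ≤ 1 / 2 * ww κ * (τ - vs qU qW qV κ a) :=
    mul_le_mul_of_nonneg_left hτ (by have := ww_pos κ; positivity)
  push_cast
  have h8 : ((h : ℝ) + 1) / 2 * ww κ * (τ - vs qU qW qV κ a) =
    ((h : ℝ) / 2 + 1) * ww κ * (τ - vs qU qW qV κ a) - 1 / 2 * ww κ * (τ - vs qU qW qV κ a) := by
    ring
  rw [h8]
  linarith

theorem PP_zero : PP qU qW qV κ 0 := by
  intro a ha hL
  refine ⟨a + 1, by omega, ?_, fun l hl => ?_, fun l hl hl' => ?_, fun l hl => ?_, ?_⟩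
  · exact re_act' ha (by omega)
  · exact re_act ha (by omega)
  · exact SS_act _ _ _ _ ha (by omega) hl'
  · obtain rfl : l = 0 := by omega
    exact le_rfl
  · have := QQ_nonneg qU qW κ a (a + 1)
    simpa using this

theorem PP_succ (E : Env qU qW qV κ V α) {h : ℕ} (hh : h + 1 ≤ TT2 κ) (hP : PP qU qW qV κ h) :
    PP qU qW qV κ (h + 1) := by
  intro a ha hL
  have hv : vs qU qW qV κ (a + 1) = vs qU qW qV κ a := re_act ha (by omega)
  have I : Inv qU qW qV κ V h a (vs qU qW qV κ a + (AM qU qW qV κ a : ℝ) / 2 ^ a) (a + 1) := by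
    refine ⟨by omega, ?_, ?_, ?_, ?_, ?_⟩
    · exact re_act' ha (by omega)
    · exact SS_act' _ _ _ _ ha (by omega)
    · intro l hl
      rw [EE_act _ _ _ _ ha (by omega), EE_act _ _ _ _ ha (by omega)]
      exact Nat.mul_le_mul_left 2 (EE_le_of_lt_LV _ _ _ _ (by omega))
    · rw [hv]
      have : (0 : ℝ) ≤ (AM qU qW qV κ a : ℝ) / 2 ^ a := by positivity
      linarith
    · have h1 := blk0 E (2 * a + kk κ) (le_refl a) (Nat.le_succ a) hv
      rw [QQ_self] at h1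
      rw [hv]
      simp only [Nat.succ_eq_add_one] at h1
      linarith
  obtain ⟨e, he, Ie, hve, hEe, hSe⟩ := loop E hP hh I
  refine ⟨e, by omega, hve, fun l hl => ?_, fun l hl hl' => ?_, fun l hl => ?_, ?_⟩
  · rw [hEe l (by omega)]
    exact re_act ha (by omega)
  · rw [hSe l (by omega) hl']
    exact SS_act _ _ _ _ ha (by omega) hl'
  · rcases Nat.lt_or_ge l (h + 1) with h1 | h1
    · exact Ie.low l (by omega)
    · obtain rfl : l = h + 1 := by omega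
      have h2 := Ie.tgt
      rw [← hve] at h2
      unfold vs at h2
      rw [div_left_inj' (by positivity)] at h2
      exact_mod_cast h2.le
  · have hτ : (1 / 2 : ℝ) ^ a ≤ vs qU qW qV κ a + (AM qU qW qV κ a : ℝ) / 2 ^ a -
        vs qU qW qV κ a := by
      rw [add_sub_cancel_left, one_div, inv_pow, ← one_div]
      exact div_le_div_of_nonneg_right (by exact_mod_cast ha) (by positivity)
    have h1 := outcome E Ie hve hτ
    rw [add_sub_cancel_left] at h1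
    exact h1

theorem PP_all (E : Env qU qW qV κ V α) : ∀ h, h ≤ TT2 κ → PP qU qW qV κ h
  | 0, _ => PP_zero
  | h + 1, hh => PP_succ E hh (PP_all E h (by omega))

/-- the strategy wins -/
theorem no_env (E : Env qU qW qV κ V α) : False := by
  obtain ⟨h, hh⟩ : ∃ h, TT2 κ = h + 1 := ⟨TT2 κ - 1, by
    have : 0 < TT2 κ := by unfold TT2; positivity
    omega⟩
  have hv : vs qU qW qV κ 0 = 0 := by
    unfold vs
    rw [EE_zero _ _ _ _ (Nat.zero_le _), if_neg (by omega)]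
    simp
  have I : Inv qU qW qV κ V h 0 1 0 := by
    refine ⟨le_rfl, ?_, ?_, ?_, ?_, ?_⟩
    · rw [← hh, EE_zero _ _ _ _ le_rfl]; simp
    · exact SS_zero _ _ _ _ (by omega)
    · intro l hl
      rw [EE_zero _ _ _ _ (by omega), if_neg (by omega)]
      exact Nat.zero_le _
    · rw [hv]; norm_num
    · rw [QQ_self]; simp
  obtain ⟨e, _, Ie, hve, _, _⟩ := loop E (PP_all E h (by omega)) (by omega) I
  have h1 := outcome E Ie hve (by rw [hv]; norm_num)
  rw [hv, sub_zero, mul_one, ← hh] at h1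
  have h2 : ((TT2 κ : ℕ) : ℝ) / 2 * ww κ = 2 := by
    unfold TT2 ww
    push_cast
    rw [pow_add]
    have : (2 : ℝ) ^ κ.length * (1 / 2) ^ κ.length = 1 := by rw [← mul_pow]; norm_num
    linear_combination 2 * this
  rw [h2] at h1
  have h3 : QQ qU qW κ 0 e ≤ 1 := by
    unfold QQ
    refine (wt_mono (Finset.sdiff_subset.trans (DD_sub qU qW κ e))).trans ?_
    exact kraft _ (E.pf e)
  linarith

end phase

end Pool.Agent.Y549.Om
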