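import Pool.Agent.Y549.Om.Strat

set_option autoImplicit false

/-!
Elementary facts on the states of the strategy.
-/

namespace Pool.Agent.Y549.Om

open Encodable Pool.Agent.Helper227 Pool.Agent.H561R3 Pool.Agent.H561R3.Om

theorem gE_of_ge {L : List (ℕ × ℕ)} {l : ℕ} (h : L.length ≤ l) : gE L l = 0 := by
  unfold gE
  rw [List.getD_eq_getElem?_getD, List.getElem?_eq_none h]
  rfl

theorem lev_le_length (L : List (ℕ × ℕ)) : lev L ≤ L.length := List.findIdx_le_length

theorem gE_le_of_lt_lev {L : List (ℕ × ℕ)} {l : ℕ} (h : l < lev L) : gE L l ≤ gE L 0 := by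
  have h2 := List.not_of_lt_findIdx (p := fun x : ℕ × ℕ => decide (gE L 0 < x.1)) (xs := L) h
  have h3 : l < L.length := lt_of_lt_of_le h (lev_le_length L)
  have h4 : gE L l = (L[l]).1 := by
    unfold gE
    rw [List.getD_eq_getElem _ _ h3]
  rw [h4]
  simpa using h2

theorem lt_gE_lev {L : List (ℕ × ℕ)} (h : lev L < L.length) : gE L 0 < gE L (lev L) := by
  have h2 := List.findIdx_getElem (p := fun x : ℕ × ℕ => decide (gE L 0 < x.1)) (xs := L) (w := h)
  have h4 : gE L (lev L) = (L[lev L]).1 := by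
    conv_lhs => unfold gE
    rw [List.getD_eq_getElem _ _ h]
  rw [h4]
  have h5 := of_decide_eq_true h2
  exact h5

theorem lev_eq {L : List (ℕ × ℕ)} {h : ℕ} (h1 : gE L 0 < gE L h) (h2 : ∀ l < h, gE L l ≤ gE L 0) :
    lev L = h := by
  have hl : h < L.length := by
    by_contra hc
    rw [gE_of_ge (not_lt.1 hc)] at h1
    omega
  rcases Nat.lt_trichotomy (lev L) h with h3 | h3 | h3
  · have h4 := lt_gE_lev (L := L) (by omega)
    have h5 := h2 _ h3
    omega
  · exact h3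
  · have h4 := gE_le_of_lt_lev (L := L) h3
    omega

section st

variable (qU : Str × Str → ℕ → Prop) (qW : Str → ℕ → Prop) (qV : ℕ × IC → ℕ → Prop) (κ : Str)

noncomputable def EE (s l : ℕ) : ℕ := gE (ST2 qU qW qV κ s) l
noncomputable def SS (s l : ℕ) : ℕ := gS (ST2 qU qW qV κ s) l
noncomputable def LV (s : ℕ) : ℕ := lev (ST2 qU qW qV κ s)
noncomputable def AM (s : ℕ) : ℕ := amt2 qU qW qV κ s (ST2 qU qW qV κ s)

theorem ST2_succ (s : ℕ) : ST2 qU qW qV κ (s + 1) = stepL2 qU qW qV κ s (ST2 qU qW qV κ s) := rfl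

theorem length_ST2 (s : ℕ) : (ST2 qU qW qV κ s).length = TT2 κ + 1 := by
  induction s with
  | zero => simp [ST2, ini2]
  | succ s ih => rw [ST2_succ, stepL2, List.length_map, List.length_range, ih]

theorem EE_zero {l : ℕ} (hl : l ≤ TT2 κ) : EE qU qW qV κ 0 l = if l = TT2 κ then 1 else 0 := by
  unfold EE ST2 gE
  simp only [Nat.rec_zero]
  unfold ini2
  rw [List.getD_eq_getElem _ _ (by simp; omega)]
  simp

theorem SS_zero {l : ℕ} (hl : l ≤ TT2 κ) : SS qU qW qV κ 0 l = 0 := by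
  unfold SS ST2 gS
  simp only [Nat.rec_zero]
  unfold ini2
  rw [List.getD_eq_getElem _ _ (by simp; omega)]
  simp

theorem EE_of_gt {s l : ℕ} (hl : TT2 κ < l) : EE qU qW qV κ s l = 0 :=
  gE_of_ge (by rw [length_ST2]; omega)

theorem get_step (s l : ℕ) (hl : l ≤ TT2 κ) :
    (ST2 qU qW qV κ (s + 1)).getD l (0, 0) =
    if AM qU qW qV κ s = 0 then (2 * EE qU qW qV κ s l, SS qU qW qV κ s l)
    else (if l + 1 = LV qU qW qV κ s then 2 * (EE qU qW qV κ s 0 + AM qU qW qV κ s)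
        else 2 * EE qU qW qV κ s l,
      if l < LV qU qW qV κ s then s else SS qU qW qV κ s l) := by
  rw [ST2_succ, stepL2]
  have h1 : l < (ST2 qU qW qV κ s).length := by rw [length_ST2]; omega
  rw [List.getD_eq_getElem _ _ (by simpa using h1)]
  simp only [List.getElem_map, List.getElem_range]
  rfl

theorem EE_idle {s l : ℕ} (h : AM qU qW qV κ s = 0) :
    EE qU qW qV κ (s + 1) l = 2 * EE qU qW qV κ s l := by
  by_cases hl : l ≤ TT2 κ
  · have h1 := get_step qU qW qV κ s l hl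
    rw [if_pos h] at h1
    exact congrArg Prod.fst h1
  · rw [EE_of_gt _ _ _ _ (not_le.1 hl), EE_of_gt _ _ _ _ (not_le.1 hl)]

theorem SS_idle {s l : ℕ} (h : AM qU qW qV κ s = 0) (hl : l ≤ TT2 κ) :
    SS qU qW qV κ (s + 1) l = SS qU qW qV κ s l := by
  have h1 := get_step qU qW qV κ s l hl
  rw [if_pos h] at h1
  have h2 := congrArg Prod.snd h1
  exact h2

theorem AM_le (s : ℕ) : AM qU qW qV κ s ≤
    EE qU qW qV κ s (LV qU qW qV κ s) - EE qU qW qV κ s 0 := by
  classical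
  exact Nat.findGreatest_le _

theorem LV_le (s : ℕ) : LV qU qW qV κ s ≤ TT2 κ + 1 := by
  have := lev_le_length (ST2 qU qW qV κ s)
  rwa [length_ST2] at this

theorem LV_lt_of_AM {s : ℕ} (h : 0 < AM qU qW qV κ s) : LV qU qW qV κ s ≤ TT2 κ := by
  by_contra hc
  have h1 := AM_le qU qW qV κ s
  rw [EE_of_gt _ _ _ _ (not_le.1 hc)] at h1
  omega

theorem LV_pos (s : ℕ) : 0 < LV qU qW qV κ s := by
  by_contra hc
  have h0 : lev (ST2 qU qW qV κ s) = 0 := by unfold LV at hc; omega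
  have h1 := lt_gE_lev (L := ST2 qU qW qV κ s) (by rw [h0, length_ST2]; omega)
  rw [h0] at h1
  omega

theorem EE_act {s l : ℕ} (h : 0 < AM qU qW qV κ s) (hl : l + 1 ≠ LV qU qW qV κ s) :
    EE qU qW qV κ (s + 1) l = 2 * EE qU qW qV κ s l := by
  by_cases hl' : l ≤ TT2 κ
  · have h1 := get_step qU qW qV κ s l hl'
    rw [if_neg (by omega), if_neg hl] at h1
    exact congrArg Prod.fst h1
  · rw [EE_of_gt _ _ _ _ (not_le.1 hl'), EE_of_gt _ _ _ _ (not_le.1 hl')]

theorem EE_act' {s l : ℕ} (h : 0 < AM qU qW qV κ s) (hl : l + 1 = LV qU qW qV κ s) :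
    EE qU qW qV κ (s + 1) l = 2 * (EE qU qW qV κ s 0 + AM qU qW qV κ s) := by
  have h2 := LV_lt_of_AM qU qW qV κ h
  have h1 := get_step qU qW qV κ s l (by omega)
  rw [if_neg (by omega), if_pos hl] at h1
  exact congrArg Prod.fst h1

theorem SS_act {s l : ℕ} (h : 0 < AM qU qW qV κ s) (hl : LV qU qW qV κ s ≤ l) (hl' : l ≤ TT2 κ) :
    SS qU qW qV κ (s + 1) l = SS qU qW qV κ s l := by
  have h1 := get_step qU qW qV κ s l hl'
  rw [if_neg (by omega)] at h1
  have h2 := congrArg Prod.snd h1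
  simp only [if_neg (not_lt.2 hl)] at h2
  exact h2

theorem SS_act' {s l : ℕ} (h : 0 < AM qU qW qV κ s) (hl : l < LV qU qW qV κ s) :
    SS qU qW qV κ (s + 1) l = s := by
  have h2 := LV_lt_of_AM qU qW qV κ h
  have h1 := get_step qU qW qV κ s l (by omega)
  rw [if_neg (by omega)] at h1
  have h2 := congrArg Prod.snd h1
  simp only [if_pos hl] at h2
  exact h2

/-- the action at stage `s` is allowed -/
theorem act_AM {s : ℕ} (h : 0 < AM qU qW qV κ s) :
    Act qU qW qV κ s (EE qU qW qV κ s 0) (2 * SS qU qW qV κ s (LV qU qW qV κ s) + kk κ)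
      (AM qU qW qV κ s) := by
  classical
  exact Nat.findGreatest_of_ne_zero (P := fun r => Act qU qW qV κ s (EE qU qW qV κ s 0)
    (2 * SS qU qW qV κ s (LV qU qW qV κ s) + kk κ) r) rfl (by unfold AM amt2 at h; exact h.ne')

theorem le_AM {s r : ℕ} (h1 : r ≤ EE qU qW qV κ s (LV qU qW qV κ s) - EE qU qW qV κ s 0)
    (h2 : Act qU qW qV κ s (EE qU qW qV κ s 0) (2 * SS qU qW qV κ s (LV qU qW qV κ s) + kk κ) r) :
    r ≤ AM qU qW qV κ s := by
  classical
  exact Nat.le_findGreatest h1 h2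

theorem EE_le_of_lt_LV {s l : ℕ} (h : l < LV qU qW qV κ s) :
    EE qU qW qV κ s l ≤ EE qU qW qV κ s 0 := gE_le_of_lt_lev h

theorem LV_eq {s h : ℕ} (h1 : EE qU qW qV κ s 0 < EE qU qW qV κ s h)
    (h2 : ∀ l < h, EE qU qW qV κ s l ≤ EE qU qW qV κ s 0) : LV qU qW qV κ s = h := lev_eq h1 h2

theorem AM_add_le {s : ℕ} (h : 0 < AM qU qW qV κ s) : EE qU qW qV κ s 0 + AM qU qW qV κ s ≤
    EE qU qW qV κ s (LV qU qW qV κ s) := by
  have := AM_le qU qW qV κ s
  omega

/-- all the targets are at most one -/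
theorem EE_le (s l : ℕ) : EE qU qW qV κ s l ≤ 2 ^ s := by
  induction s generalizing l with
  | zero =>
    by_cases hl : l ≤ TT2 κ
    · rw [EE_zero _ _ _ _ hl]; split_ifs <;> simp
    · rw [EE_of_gt _ _ _ _ (not_le.1 hl)]; simp
  | succ s ih =>
    rw [pow_succ, mul_comm]
    by_cases h0 : AM qU qW qV κ s = 0
    · rw [EE_idle _ _ _ _ h0]
      exact Nat.mul_le_mul_left 2 (ih l)
    · have h0' : 0 < AM qU qW qV κ s := by omega
      by_cases hl : l + 1 = LV qU qW qV κ s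
      · rw [EE_act' _ _ _ _ h0' hl]
        exact Nat.mul_le_mul_left 2 ((AM_add_le qU qW qV κ h0').trans (ih _))
      · rw [EE_act _ _ _ _ h0' hl]
        exact Nat.mul_le_mul_left 2 (ih l)

/-- what has been spent does not decrease -/
theorem EE_mono_step (s : ℕ) : 2 * EE qU qW qV κ s 0 ≤ EE qU qW qV κ (s + 1) 0 := by
  by_cases h0 : AM qU qW qV κ s = 0
  · rw [EE_idle _ _ _ _ h0]
  · have h0' : 0 < AM qU qW qV κ s := by omega
    by_cases hl : 0 + 1 = LV qU qW qV κ s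
    · rw [EE_act' _ _ _ _ h0' hl]; omega
    · rw [EE_act _ _ _ _ h0' hl]

theorem EE_mono (s k : ℕ) : 2 ^ k * EE qU qW qV κ s 0 ≤ EE qU qW qV κ (s + k) 0 := by
  induction k with
  | zero => simp
  | succ k ih =>
    have := EE_mono_step qU qW qV κ (s + k)
    rw [pow_succ, ← add_assoc]
    have h : 2 ^ k * 2 * EE qU qW qV κ s 0 = 2 * (2 ^ k * EE qU qW qV κ s 0) := by ring
    rw [h]
    omega

end st

end Pool.Agent.Y549.Om
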