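import Pool.Agent.H561R3.Om.Strat

set_option autoImplicit false

/-!
The strategy used in the proof that halting probabilities of co-c.e. sets are random: a nested
strategy with `TT2 κ` levels. The state at stage `s` is a list of pairs `(E_l, S_l)`, where `E_l` is
the target of level `l` (in units `2^(-s)`; `E_0` is what has been spent) and `S_l` is the stage at
which the current phase of level `l` was started.
-/

namespace Pool.Agent.Y549.Om

open Encodable Pool.Agent.Helper227 Pool.Agent.H561R3 Pool.Agent.H561R3.Om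

section defs

variable (qU : Str × Str → ℕ → Prop) (qW : Str → ℕ → Prop) (qV : ℕ × IC → ℕ → Prop)

/-- the number of levels -/
def TT2 (κ : Str) : ℕ := 2 ^ (κ.length + 2)

/-- the initial state -/
def ini2 (κ : Str) : List (ℕ × ℕ) :=
  (List.range (TT2 κ + 1)).map (fun l => (if l = TT2 κ then 1 else 0, 0))

open Classical in
/-- the amount -/
noncomputable def amt2 (κ : Str) (s : ℕ) (L : List (ℕ × ℕ)) : ℕ :=
  Nat.findGreatest (fun r => Act qU qW qV κ s (gE L 0) (2 * gS L (lev L) + kk κ) r)
    (gE L (lev L) - gE L 0)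

noncomputable def stepL2 (κ : Str) (s : ℕ) (L : List (ℕ × ℕ)) : List (ℕ × ℕ) :=
  (List.range L.length).map (fun l =>
    if amt2 qU qW qV κ s L = 0 then (2 * gE L l, gS L l)
    else (if l + 1 = lev L then 2 * (gE L 0 + amt2 qU qW qV κ s L) else 2 * gE L l,
      if l < lev L then s else gS L l))

/-- the state at stage `s` -/
noncomputable def ST2 (κ : Str) (s : ℕ) : List (ℕ × ℕ) :=
  Nat.rec (ini2 κ) (fun s L => stepL2 qU qW qV κ s L) s

end defs

section prim

open Classical

variable {qU : Str × Str → ℕ → Prop} {qW : Str → ℕ → Prop} {qV : ℕ × IC → ℕ → Prop}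

variable {α : Type} [Primcodable α]

theorem pr_TT2 : Primrec TT2 := by
  unfold TT2
  exact pr_pow.comp (Primrec.const 2) (Primrec.nat_add.comp Primrec.list_length (Primrec.const 2))

theorem pr_ini2 : Primrec ini2 := by
  unfold ini2
  refine Primrec.list_map (Primrec.list_range.comp (Primrec.succ.comp pr_TT2)) ?_
  refine Primrec.pair (Primrec.ite ?_ (Primrec.const 1) (Primrec.const 0)) (Primrec.const 0)
  exact Primrec.eq.comp Primrec.snd (pr_TT2.comp Primrec.fst)

theorem pr_amt2 (hU : PrimrecRel qU) (hW : PrimrecRel qW) (hV : PrimrecRel qV)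
    {κ : α → Str} {s : α → ℕ} {L : α → List (ℕ × ℕ)}
    (hκ : Primrec κ) (hs : Primrec s) (hL : Primrec L) :
    Primrec fun a => amt2 qU qW qV (κ a) (s a) (L a) := by
  unfold amt2
  have hlev := pr_lev hL
  refine Primrec.nat_findGreatest (p := fun a r => Act qU qW qV (κ a) (s a) (gE (L a) 0)
    (2 * gS (L a) (lev (L a)) + kk (κ a)) r) ?_ ?_
  · exact Primrec.nat_sub.comp (pr_gE hL hlev) (pr_gE hL (Primrec.const 0))
  · refine pr_Act (α := α × ℕ) hU hW hV (hκ.comp Primrec.fst) (hs.comp Primrec.fst)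
      ((pr_gE hL (Primrec.const 0)).comp Primrec.fst) ?_ Primrec.snd
    exact (Primrec.nat_add.comp (Primrec.nat_mul.comp (Primrec.const 2) (pr_gS hL hlev))
      (pr_kk.comp hκ)).comp Primrec.fst

theorem pr_stepL2 (hU : PrimrecRel qU) (hW : PrimrecRel qW) (hV : PrimrecRel qV)
    {κ : α → Str} {s : α → ℕ} {L : α → List (ℕ × ℕ)}
    (hκ : Primrec κ) (hs : Primrec s) (hL : Primrec L) :
    Primrec fun a => stepL2 qU qW qV (κ a) (s a) (L a) := by
  unfold stepL2
  have hA := pr_amt2 hU hW hV hκ hs hL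
  have hlev := pr_lev hL
  have hA' := hA.comp (Primrec.fst (α := α) (β := ℕ))
  have hlev' := hlev.comp (Primrec.fst (α := α) (β := ℕ))
  have hL' := hL.comp (Primrec.fst (α := α) (β := ℕ))
  have hs' := hs.comp (Primrec.fst (α := α) (β := ℕ))
  refine Primrec.list_map (Primrec.list_range.comp (Primrec.list_length.comp hL)) ?_
  refine Primrec.ite ?_ ?_ ?_
  · exact Primrec.eq.comp hA' (Primrec.const 0)
  · exact Primrec.pair (Primrec.nat_mul.comp (Primrec.const 2) (pr_gE hL' Primrec.snd))
      (pr_gS hL' Primrec.snd)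
  · refine Primrec.pair (Primrec.ite ?_ ?_ ?_) (Primrec.ite ?_ hs' (pr_gS hL' Primrec.snd))
    · exact Primrec.eq.comp (Primrec.succ.comp Primrec.snd) hlev'
    · exact Primrec.nat_mul.comp (Primrec.const 2) (Primrec.nat_add.comp
        (pr_gE hL' (Primrec.const 0)) hA')
    · exact Primrec.nat_mul.comp (Primrec.const 2) (pr_gE hL' Primrec.snd)
    · exact Primrec.nat_lt.comp Primrec.snd hlev'

theorem pr_ST2 (hU : PrimrecRel qU) (hW : PrimrecRel qW) (hV : PrimrecRel qV) :
    Primrec₂ (ST2 qU qW qV) := by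
  unfold ST2
  refine Primrec.nat_rec (f := ini2) (g := fun κ (x : ℕ × List (ℕ × ℕ)) =>
    stepL2 qU qW qV κ x.1 x.2) pr_ini2 ?_
  exact pr_stepL2 hU hW hV Primrec.fst (Primrec.fst.comp Primrec.snd)
    (Primrec.snd.comp Primrec.snd)

end prim

end Pool.Agent.Y549.Om
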